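import Pool.Agent.Helper815.Rho.Base

/-!
A lower bound for the unions of sets of lengths over finite non-cyclic groups.
-/

set_option autoImplicit false

namespace Pool.Agent.Results.MP_bb931d_co.PlusTwo

/-- Minimal zero-sum sequences over `G` (sequences are multisets). -/
def IsMinZeroSum {G : Type} [AddCommGroup G] (S : Multiset G) : Prop :=
  S ≠ 0 ∧ S.sum = 0 ∧ ∀ T : Multiset G, T ≤ S → T ≠ 0 → T.sum = 0 → T = S

/-- `A` is a product of `m` minimal zero-sum sequences, that is `m ∈ L(A)`. -/
def HasLength {G : Type} [AddCommGroup G] (A : Multiset G) (m : ℕ) : Prop :=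
  ∃ l : List (Multiset G), l.length = m ∧ (∀ S ∈ l, IsMinZeroSum S) ∧ l.sum = A

/-- The Davenport constant of a finite abelian group. -/
noncomputable def davenport (G : Type) [AddCommGroup G] : ℕ :=
  sSup {m : ℕ | ∃ S : Multiset G, IsMinZeroSum S ∧ Multiset.card S = m}

/-- `ρ_k` of the monoid of zero-sum sequences over `G`: the supremum of all `m` such that some
zero-sum sequence has factorizations of length `k` and of length `m`. -/
noncomputable def rho (G : Type) [AddCommGroup G] (k : ℕ) : ℕ∞ :=
  sSup {x : ℕ∞ | ∃ (A : Multiset G) (m : ℕ), HasLength A k ∧ HasLength A m ∧ x = m}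

open Pool.Agent.Helper815.Rho in
theorem neg_mz {G : Type} [AddCommGroup G] {S : Multiset G} (hS : IsMinZeroSum S) :
    IsMinZeroSum (S.map (fun a => -a)) := by
  obtain ⟨h0, hs, hmin⟩ := hS
  refine ⟨?_, by rw [map_neg_sum, hs, neg_zero], ?_⟩
  · intro h
    rw [Multiset.map_eq_zero] at h
    exact h0 h
  · intro T hT hT0 hTs
    obtain ⟨K, hK, rfl⟩ := le_map_exists (fun a : G => -a) S T hT
    have h1 : K ≠ 0 := by
      rintro rfl
      simp at hT0
    rw [map_neg_sum, neg_eq_zero] at hTs
    rw [hmin K hK h1 hTs]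

theorem hasLength_add {G : Type} [AddCommGroup G] {A B : Multiset G} {a b : ℕ}
    (hA : HasLength A a) (hB : HasLength B b) : HasLength (A + B) (a + b) := by
  obtain ⟨l, hl, hl2, rfl⟩ := hA
  obtain ⟨l', hl', hl2', rfl⟩ := hB
  refine ⟨l ++ l', by simp [hl, hl'], ?_, by simp⟩
  intro S hS
  rcases List.mem_append.1 hS with h | h
  · exact hl2 S h
  · exact hl2' S h

open Pool.Agent.Helper815.Rho in
theorem pump {G : Type} [AddCommGroup G] {S : Multiset G} (hS : IsMinZeroSum S)
    (h0 : (0 : G) ∉ S) (j : ℕ) :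
    ∃ C : Multiset G, HasLength C (2 * j) ∧ HasLength C (j * Multiset.card S) := by
  induction j with
  | zero => exact ⟨0, ⟨[], by simp, by simp, by simp⟩, ⟨[], by simp, by simp, by simp⟩⟩
  | succ j ih =>
    obtain ⟨C, h1, h2⟩ := ih
    refine ⟨C + (S + S.map (fun a => -a)), ?_, ?_⟩
    · have h3 : HasLength (S + S.map (fun a => -a)) 2 := by
        refine ⟨[S, S.map (fun a => -a)], rfl, ?_, by simp⟩
        intro T hT
        simp only [List.mem_cons, List.not_mem_nil, or_false] at hT
        rcases hT with rfl | rfl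
        · exact hS
        · exact neg_mz hS
      have h4 := hasLength_add h1 h3
      rwa [show 2 * (j + 1) = 2 * j + 2 by ring]
    · have h3 : HasLength (S + S.map (fun a => -a)) (Multiset.card S) := by
        obtain ⟨l, hl, hl2, hl3⟩ := pairs_sum S
        refine ⟨l, hl, ?_, hl3⟩
        intro T hT
        obtain ⟨a, ha, rfl⟩ := hl2 T hT
        exact mz_pair a (fun h => h0 (h ▸ ha))
      have h4 := hasLength_add h2 h3
      rwa [show (j + 1) * Multiset.card S = j * Multiset.card S + Multiset.card S by ring]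

/-- For every finite abelian group `G` that is neither cyclic nor isomorphic to `C₂ ⊕ C₂`, and every
`k ≥ 1`, `ρ_{2k+1}(G) ≥ k D(G) + 2`. -/
theorem result :
    ∀ (G : Type) [AddCommGroup G] [Finite G], ¬ IsAddCyclic G →
      ¬ Nonempty (G ≃+ (ZMod 2 × ZMod 2)) →
      ∀ k : ℕ, 1 ≤ k → ((k * davenport G + 2 : ℕ) : ℕ∞) ≤ rho G (2 * k + 1) := by
  intro G _ _ hcyc hklein k hk
  classical
  have : Fintype G := Fintype.ofFinite G
  have hcard : 3 ≤ Fintype.card G := by
    by_contra hlt
    apply hcyc
    have hpos : 0 < Fintype.card G := Fintype.card_pos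
    have hcases : Fintype.card G = 1 ∨ Fintype.card G = 2 := by omega
    rcases hcases with h | h
    · have : Subsingleton G := Fintype.card_le_one_iff_subsingleton.1 h.le
      infer_instance
    · have : Fact (Nat.Prime 2) := ⟨Nat.prime_two⟩
      exact isAddCyclic_of_prime_card (p := 2) (by rw [Nat.card_eq_fintype_card, h])
  have hbdd : BddAbove {m : ℕ | ∃ S : Multiset G, IsMinZeroSum S ∧ Multiset.card S = m} := by
    refine ⟨Fintype.card G, ?_⟩
    rintro m ⟨S, hS, rfl⟩
    exact Pool.Agent.Helper815.Rho.MZ.card_le hS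
  have hle : ∀ T : Multiset G, IsMinZeroSum T → Multiset.card T ≤ davenport G :=
    fun T hT => le_csSup hbdd ⟨T, hT, rfl⟩
  -- an element different from zero
  obtain ⟨g, hg⟩ : ∃ g : G, g ≠ 0 := by
    have : Nontrivial G := Fintype.one_lt_card_iff_nontrivial.1 (by omega)
    exact exists_ne 0
  have hpair := Pool.Agent.Helper815.Rho.mz_pair g hg
  have hD2 : 2 ≤ davenport G := by
    have := hle _ hpair
    simpa using this
  obtain ⟨S, hS, hSD⟩ : ∃ S : Multiset G, IsMinZeroSum S ∧ Multiset.card S = davenport G :=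
    Nat.sSup_mem (s := {m : ℕ | ∃ S : Multiset G, IsMinZeroSum S ∧ Multiset.card S = m})
      ⟨_, _, hpair, rfl⟩ hbdd
  have hS0 : (0 : G) ∉ S := by
    intro h
    have h1 := hS.2.2 {0} (Multiset.singleton_le.2 h) (by simp) (by simp)
    rw [← h1] at hSD
    simp at hSD
    omega
  -- a product of three atoms with a factorization of length at least `D + 2`
  obtain ⟨A, m, hA3, hAm, hm⟩ : ∃ (A : Multiset G) (m : ℕ), HasLength A 3 ∧ HasLength A m ∧
      davenport G + 2 ≤ m := by
    by_contra hno
    push Not at hno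
    rcases Pool.Agent.Helper815.Rho.noncyc hcard S hS
      (fun T hT => by rw [hSD]; exact hle T hT)
      (fun A m h3 hm => by
        have := hno A m h3 hm
        rw [hSD]
        omega) with h | h
    · exact hcyc h
    · exact hklein h
  obtain ⟨j, rfl⟩ := Nat.exists_eq_add_of_le hk
  obtain ⟨C, hC1, hC2⟩ := pump hS hS0 j
  have h1 := hasLength_add hA3 hC1
  have h2 := hasLength_add hAm hC2
  rw [show 3 + 2 * j = 2 * (1 + j) + 1 by ring] at h1
  rw [hSD] at h2
  refine le_trans ?_ (le_sSup ⟨A + C, _, h1, h2, rfl⟩)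
  have h3 : (1 + j) * davenport G + 2 ≤ m + j * davenport G := by
    rw [add_mul, one_mul]
    omega
  exact_mod_cast h3

end Pool.Agent.Results.MP_bb931d_co.PlusTwo
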